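import Mathlib
import Pool.Agent.Helper926.RK.RELib

set_option autoImplicit false

/-!
A nonzero degree for partial many-one enumeration reducibility which is a single degree for
many-one reducibility with the r.e. sets adjoined.
-/

namespace Pool.Agent.Results.MP_9a6b8c_lc.ContiguousPm

open Pool.Agent.Helper926 Pool.Agent.Helper926.RE
open Nat.Partrec (Code)

/-- `InD d u`: the number `d` belongs to the finite set with canonical index `u`. -/
def InD (d u : ℕ) : Prop := Nat.testBit u d = true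

/-- `Ap Ψ B` is the set obtained from `B` by the enumeration operator `Ψ`. -/
def Ap (Ψ : ℕ × ℕ → Prop) (B : ℕ → Prop) (x : ℕ) : Prop :=
  ∃ u : ℕ, Ψ (x, u) ∧ ∀ d : ℕ, InD d u → B d

/-- The relation given by the class `r` of enumeration operators. -/
def Red (r : (ℕ × ℕ → Prop) → Prop) (A B : ℕ → Prop) : Prop :=
  ∃ Ψ : ℕ × ℕ → Prop, r Ψ ∧ ∀ x : ℕ, A x ↔ Ap Ψ B x

/-- The class `r` consists of enumeration operators and gives a reflexive and transitive
relation. -/
def IsEReducibility (r : (ℕ × ℕ → Prop) → Prop) : Prop :=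
  (∀ Ψ, r Ψ → REPred Ψ) ∧ (∀ A, Red r A A) ∧
    ∀ A B C, Red r A B → Red r B C → Red r A C

/-- The degree of the empty set contains every r.e. set. -/
def IsProper (r : (ℕ × ℕ → Prop) → Prop) : Prop :=
  ∀ A : ℕ → Prop, REPred A → Red r A (fun _ => False) ∧ Red r (fun _ => False) A

/-- The `z`-degree of `A` is not the degree of the empty set and it is a single `y`-degree. -/
def IsContiguous (y z : (ℕ × ℕ → Prop) → Prop) (A : ℕ → Prop) : Prop :=
  ¬ (Red z A (fun _ => False) ∧ Red z (fun _ => False) A) ∧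
    ∀ B C : ℕ → Prop, Red z A B → Red z B A → Red z A C → Red z C A →
      Red y B C ∧ Red y C B

/-- The operators which are both s-operators and pc-operators: each `ε_x` has at most one
member, and this member has at most one element. -/
def Pm (Ψ : ℕ × ℕ → Prop) : Prop :=
  REPred Ψ ∧ (∀ x u u', Ψ (x, u) → Ψ (x, u') → u = u') ∧
    ∀ x u d d', Ψ (x, u) → InD d u → InD d' u → d = d'

/-- The operators in `Pm` for which either every `ε_x` has a nonempty member, or no `ε_x` has a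
nonempty member. -/
def MOrRe (Ψ : ℕ × ℕ → Prop) : Prop :=
  Pm Ψ ∧ ((∀ x, ∃ u d, Ψ (x, u) ∧ InD d u) ∨ ∀ x u d, Ψ (x, u) → ¬ InD d u)

/-- The set of all `e` such that the r.e. set number `e` is finite. -/
def FinSet (e : ℕ) : Prop :=
  {m : ℕ | ((Denumerable.ofNat Code e).eval m).Dom}.Finite

/-! ### auxiliary facts -/

/-- the r.e. sets -/
def Wd (e m : ℕ) : Prop := ((Denumerable.ofNat Code e).eval m).Dom

theorem inD_zero (d : ℕ) : ¬ InD d 0 := by simp [InD]

theorem inD_pow (d i : ℕ) : InD i (2 ^ d) ↔ i = d := by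
  unfold InD
  rw [Nat.testBit_two_pow]
  simp [eq_comm]

theorem eq_pow {u d : ℕ} (h : InD d u) (hu : ∀ d d', InD d u → InD d' u → d = d') :
    u = 2 ^ d := by
  apply Nat.eq_of_testBit_eq
  intro i
  rw [Nat.testBit_two_pow]
  by_cases hi : d = i
  · subst hi
    simpa [InD] using h
  · have : ¬ InD i u := fun h' => hi (hu _ _ h h')
    unfold InD at this
    simp [hi, Bool.not_eq_true] at this ⊢
    exact this

theorem eq_zero {u : ℕ} (h : ∀ d, ¬ InD d u) : u = 0 := by
  apply Nat.eq_of_testBit_eq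
  intro i
  have := h i
  unfold InD at this
  simpa using this

theorem Pm.cases {Ψ : ℕ × ℕ → Prop} (h : Pm Ψ) {x u : ℕ} (hu : Ψ (x, u)) :
    u = 0 ∨ ∃ d, u = 2 ^ d := by
  by_cases hd : ∃ d, InD d u
  · obtain ⟨d, hd⟩ := hd
    exact Or.inr ⟨d, eq_pow hd fun a b ha hb => h.2.2 x u a b hu ha hb⟩
  · push Not at hd
    exact Or.inl (eq_zero hd)

theorem pow_ne (d : ℕ) : (2 : ℕ) ^ d ≠ 0 := by positivity

theorem pow_inj {a b : ℕ} (h : (2 : ℕ) ^ a = 2 ^ b) : a = b :=
  Nat.pow_right_injective le_rfl h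

theorem Ap_pow {Ψ : ℕ × ℕ → Prop} (h : Pm Ψ) {x d : ℕ} (hd : Ψ (x, 2 ^ d)) (B : ℕ → Prop) :
    Ap Ψ B x ↔ B d := by
  constructor
  · rintro ⟨u, hu, hB⟩
    have := h.2.1 x _ _ hu hd
    subst this
    exact hB d ((inD_pow d d).2 rfl)
  · intro hB
    refine ⟨2 ^ d, hd, fun i hi => ?_⟩
    rw [(inD_pow d i).1 hi]
    exact hB

theorem Ap_zero {Ψ : ℕ × ℕ → Prop} {x : ℕ} (hx : Ψ (x, 0)) (B : ℕ → Prop) : Ap Ψ B x :=
  ⟨0, hx, fun d hd => absurd hd (inD_zero d)⟩

theorem c_pow : Computable fun d : ℕ => (2 : ℕ) ^ d := by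
  have h1 : Computable fun n : ℕ => (Nat.rec (1 : ℕ) (fun _ l => l + l) n : ℕ) := by
    refine Computable.nat_rec (f := fun n : ℕ => n) (g := fun _ : ℕ => (1 : ℕ))
      (h := fun (_ : ℕ) (y : ℕ × ℕ) => y.2 + y.2) Computable.id (Computable.const 1) ?_
    unfold Computable₂
    fun_prop
  refine h1.of_eq fun n => ?_
  induction n with
  | zero => rfl
  | succ n ih => rw [pow_succ, mul_two, ← ih]

theorem re_Wd : REPred fun x : ℕ × ℕ => Wd x.1 x.2 := by
  have h : Partrec fun x : ℕ × ℕ => (Denumerable.ofNat Code x.1).eval x.2 :=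
    Nat.Partrec.Code.eval_part.comp ((Computable.ofNat Code).comp Computable.fst) Computable.snd
  exact h.dom_re

/-- the recursion theorem with a parameter -/
theorem rec_thm {R : (ℕ × ℕ) × ℕ → Prop} (hR : REPred R) :
    ∃ h : ℕ → ℕ, Computable h ∧ ∀ c m, Wd (h c) m ↔ R ((h c, c), m) := by
  have hF : Partrec₂ fun (E : Code) (n : ℕ) =>
      (Part.assert (R ((Encodable.encode (Code.curry E n.unpair.1), n.unpair.1), n.unpair.2))
        fun _ => Part.some ()).map fun _ => (0 : ℕ) := by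
    have h1 : Computable fun x : Code × ℕ => Code.curry x.1 x.2.unpair.1 :=
      Nat.Partrec.Code.primrec₂_curry.to_comp.comp Computable.fst (by fun_prop)
    have h2 : Computable fun x : Code × ℕ =>
        (((Encodable.encode (Code.curry x.1 x.2.unpair.1), x.2.unpair.1), x.2.unpair.2) :
          (ℕ × ℕ) × ℕ) := by
      have h3 : Computable fun x : Code × ℕ => Encodable.encode (Code.curry x.1 x.2.unpair.1) :=
        Computable.encode.comp h1
      fun_prop
    exact (Partrec.comp hR h2).map (Computable.const 0).to₂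
  obtain ⟨E, hE⟩ := Nat.Partrec.Code.fixed_point₂ hF
  refine ⟨fun c => Encodable.encode (Code.curry E c), ?_, ?_⟩
  · exact Computable.encode.comp (Nat.Partrec.Code.primrec₂_curry.to_comp.comp
      (Computable.const E) Computable.id)
  · intro c m
    unfold Wd
    rw [Denumerable.ofNat_encode, Nat.Partrec.Code.eval_curry, hE]
    simp [Part.assert]

theorem halt_not_re : ¬ REPred fun x : ℕ => ¬ Wd x 0 := by
  intro h
  apply ComputablePred.halting_problem_not_re 0
  have h2 : REPred fun c : Code => ¬ Wd (Encodable.encode c) 0 :=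
    comp h Computable.encode
  refine h2.of_eq fun c => ?_
  unfold Wd
  rw [Denumerable.ofNat_encode]

theorem re_pow {Ψ : ℕ × ℕ → Prop} (h : REPred Ψ) {α : Type} [Primcodable α] {f g : α → ℕ}
    (hf : Computable f) (hg : Computable g) : REPred fun a => Ψ (f a, 2 ^ g a) := by
  have h1 : Computable fun a => (2 : ℕ) ^ g a := c_pow.comp hg
  exact comp h (hf.pair h1)

theorem re_app {Ψ : ℕ × ℕ → Prop} (h : REPred Ψ) {α : Type} [Primcodable α] {f g : α → ℕ}
    (hf : Computable f) (hg : Computable g) : REPred fun a => Ψ (f a, g a) :=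
  comp h (hf.pair hg)

/-! ### the two reducibilities -/

theorem red_id (A : ℕ → Prop) : ∃ Ψ, MOrRe Ψ ∧ ∀ x, A x ↔ Ap Ψ A x := by
  have hpm : Pm fun p : ℕ × ℕ => p.2 = 2 ^ p.1 := by
    refine ⟨RE.eq Computable.snd (c_pow.comp Computable.fst), ?_, ?_⟩
    · intro x u u' h1 h2
      exact h1.trans h2.symm
    · intro x u d d' h1 h2 h3
      have h1' : u = 2 ^ x := h1
      subst h1'
      rw [(inD_pow x d).1 h2, (inD_pow x d').1 h3]
  refine ⟨fun p => p.2 = 2 ^ p.1, ⟨hpm, Or.inl fun x => ⟨2 ^ x, x, rfl, (inD_pow x x).2 rfl⟩⟩,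
    fun x => (Ap_pow (d := x) hpm rfl A).symm⟩

theorem pm_const {A : ℕ → Prop} (hA : REPred A) : MOrRe fun p : ℕ × ℕ => p.2 = 0 ∧ A p.1 := by
  refine ⟨⟨RE.and (RE.eq Computable.snd (Computable.const 0)) (comp hA Computable.fst), ?_, ?_⟩,
    Or.inr ?_⟩
  · intro x u u' h1 h2
    exact h1.1.trans h2.1.symm
  · intro x u d d' h1 h2 _
    have h1' : u = 0 := h1.1
    subst h1'
    exact absurd h2 (inD_zero d)
  · intro x u d h1 h2
    have h1' : u = 0 := h1.1
    subst h1'
    exact inD_zero d h2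

theorem red_const {A : ℕ → Prop} (B : ℕ → Prop) (x : ℕ) :
    A x ↔ Ap (fun p : ℕ × ℕ => p.2 = 0 ∧ A p.1) B x := by
  constructor
  · intro h
    exact Ap_zero ⟨rfl, h⟩ B
  · rintro ⟨u, ⟨-, h⟩, -⟩
    exact h

/-- composition of operators -/
def Cp (Ψ X : ℕ × ℕ → Prop) (p : ℕ × ℕ) : Prop :=
  (Ψ (p.1, 0) ∧ p.2 = 0) ∨ ∃ d, Ψ (p.1, 2 ^ d) ∧ X (d, p.2)

theorem pm_Cp {Ψ X : ℕ × ℕ → Prop} (h : Pm Ψ) (hX : Pm X) : Pm (Cp Ψ X) := by
  refine ⟨?_, ?_, ?_⟩
  · unfold Cp
    refine RE.or (RE.and (re_app h.1 Computable.fst (Computable.const 0))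
      (RE.eq Computable.snd (Computable.const 0))) ?_
    refine RE.ex (p := fun (p : ℕ × ℕ) (d : ℕ) => Ψ (p.1, 2 ^ d) ∧ X (d, p.2)) ?_
    exact RE.and (re_pow h.1 (by fun_prop) (by fun_prop)) (re_app hX.1 (by fun_prop) (by fun_prop))
  · intro x u u' h1 h2
    rcases h1 with ⟨a, b⟩ | ⟨d, a, b⟩ <;> rcases h2 with ⟨a', b'⟩ | ⟨d', a', b'⟩
    · exact b.trans b'.symm
    · exact absurd (h.2.1 x _ _ a a').symm (pow_ne d')
    · exact absurd (h.2.1 x _ _ a a') (pow_ne d)
    · have := pow_inj (h.2.1 x _ _ a a')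
      subst this
      exact hX.2.1 d _ _ b b'
  · intro x u d d' h1 h2 h3
    rcases h1 with ⟨a, b⟩ | ⟨i, a, b⟩
    · have b' : u = 0 := b
      subst b'
      exact absurd h2 (inD_zero d)
    · exact hX.2.2 i u d d' b h2 h3

theorem Ap_Cp {Ψ X : ℕ × ℕ → Prop} (h : Pm Ψ) (C : ℕ → Prop) (x : ℕ) :
    Ap (Cp Ψ X) C x ↔ Ap Ψ (Ap X C) x := by
  constructor
  · rintro ⟨u, hu, hC⟩
    rcases hu with ⟨a, b⟩ | ⟨d, a, b⟩
    · exact Ap_zero a _
    · rw [Ap_pow h a]
      exact ⟨u, b, hC⟩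
  · rintro ⟨u, hu, hC⟩
    rcases h.cases hu with rfl | ⟨d, rfl⟩
    · exact Ap_zero (Or.inl ⟨hu, rfl⟩) C
    · obtain ⟨v, hv, hC2⟩ := hC d ((inD_pow d d).2 rfl)
      exact ⟨v, Or.inr ⟨d, hu, hv⟩, hC2⟩

theorem MOrRe_Cp {Ψ X : ℕ × ℕ → Prop} (h : MOrRe Ψ) (hX : MOrRe X) : MOrRe (Cp Ψ X) := by
  refine ⟨pm_Cp h.1 hX.1, ?_⟩
  rcases h.2 with h2 | h2
  · rcases hX.2 with h3 | h3
    · left
      intro x
      obtain ⟨u, d, a, b⟩ := h2 x
      obtain ⟨v, i, a', b'⟩ := h3 d
      have : u = 2 ^ d := eq_pow b fun e e' he he' => h.1.2.2 x u e e' a he he'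
      subst this
      exact ⟨v, i, Or.inr ⟨d, a, a'⟩, b'⟩
    · right
      intro x u d hu hd
      rcases hu with ⟨a, b⟩ | ⟨i, a, b⟩
      · have b' : u = 0 := b
        subst b'
        exact inD_zero d hd
      · exact h3 i u d b hd
  · right
    intro x u d hu hd
    rcases hu with ⟨a, b⟩ | ⟨i, a, b⟩
    · have b' : u = 0 := b
      subst b'
      exact inD_zero d hd
    · exact h2 x _ i a ((inD_pow i i).2 rfl)

theorem ered_pm : IsEReducibility Pm := by
  refine ⟨fun Ψ h => h.1, fun A => ?_, ?_⟩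
  · obtain ⟨Ψ, h1, h2⟩ := red_id A
    exact ⟨Ψ, h1.1, h2⟩
  · rintro A B C ⟨Ψ, h1, h2⟩ ⟨X, h3, h4⟩
    refine ⟨Cp Ψ X, pm_Cp h1 h3, fun x => ?_⟩
    have e : B = Ap X C := funext fun b => propext (h4 b)
    rw [Ap_Cp h1, ← e]
    exact h2 x

theorem ered_m : IsEReducibility MOrRe := by
  refine ⟨fun Ψ h => h.1.1, fun A => ?_, ?_⟩
  · obtain ⟨Ψ, h1, h2⟩ := red_id A
    exact ⟨Ψ, h1, h2⟩
  · rintro A B C ⟨Ψ, h1, h2⟩ ⟨X, h3, h4⟩
    refine ⟨Cp Ψ X, MOrRe_Cp h1 h3, fun x => ?_⟩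
    have e : B = Ap X C := funext fun b => propext (h4 b)
    rw [Ap_Cp h1.1, ← e]
    exact h2 x

theorem proper_m : IsProper MOrRe := fun A hA =>
  ⟨⟨_, pm_const hA, fun x => red_const _ x⟩,
    ⟨_, pm_const (A := fun _ => False) (RE.const False), fun x =>
      red_const (A := fun _ => False) _ x⟩⟩

theorem m_sub_pm (A B : ℕ → Prop) (h : Red MOrRe A B) : Red Pm A B := by
  obtain ⟨Ψ, h1, h2⟩ := h
  exact ⟨Ψ, h1.1, h2⟩

theorem proper_pm : IsProper Pm := fun A hA =>
  ⟨m_sub_pm _ _ (proper_m A hA).1, m_sub_pm _ _ (proper_m A hA).2⟩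

theorem red_of_m {A B : ℕ → Prop} {f : ℕ → ℕ} (hf : Computable f) (h : ∀ x, A x ↔ B (f x)) :
    Red MOrRe A B := by
  have hpm : Pm fun p : ℕ × ℕ => p.2 = 2 ^ f p.1 := by
    refine ⟨RE.eq Computable.snd (c_pow.comp (hf.comp Computable.fst)), ?_, ?_⟩
    · intro x u u' h1 h2
      exact h1.trans h2.symm
    · intro x u d d' h1 h2 h3
      have h1' : u = 2 ^ f x := h1
      subst h1'
      rw [(inD_pow _ d).1 h2, (inD_pow _ d').1 h3]
  refine ⟨_, ⟨hpm, Or.inl fun x => ⟨2 ^ f x, f x, rfl, (inD_pow _ _).2 rfl⟩⟩, fun x => ?_⟩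
  rw [Ap_pow (d := f x) hpm rfl B]
  exact h x

/-- the many-one reductions hidden in `MOrRe` -/
theorem m_of_red {A B : ℕ → Prop} (h : Red MOrRe A B) :
    (∃ f : ℕ → ℕ, Computable f ∧ ∀ x, A x ↔ B (f x)) ∨ REPred A := by
  obtain ⟨Ψ, ⟨hpm, h1⟩, h2⟩ := h
  rcases h1 with h1 | h1
  · left
    obtain ⟨f, hf, hr⟩ := exists_selector (r := fun x d => Ψ (x, 2 ^ d))
      (re_pow hpm.1 (by fun_prop) (by fun_prop)) (fun x => by
        obtain ⟨u, d, a, b⟩ := h1 x
        have : u = 2 ^ d := eq_pow b fun e e' he he' => hpm.2.2 x u e e' a he he'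
        subst this
        exact ⟨d, a⟩)
    exact ⟨f, hf, fun x => by rw [h2 x, Ap_pow hpm (hr x) B]⟩
  · right
    refine (re_app hpm.1 Computable.id (Computable.const 0)).of_eq fun x => ?_
    rw [h2 x]
    constructor
    · intro a
      exact Ap_zero a B
    · rintro ⟨u, a, -⟩
      have : u = 0 := eq_zero fun d => h1 x u d a
      subst this
      exact a

/-! ### the degree of `FinSet` -/

theorem fin_iff (e : ℕ) : FinSet e ↔ {m | Wd e m}.Finite := Iff.rfl

theorem fin_to (B : ℕ → Prop) (h : Red Pm FinSet B) :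
    ∃ g : ℕ → ℕ, Computable g ∧ ∀ c, FinSet c ↔ B (g c) := by
  obtain ⟨Ψ, hpm, hΨ⟩ := h
  obtain ⟨h, hh, hW⟩ := rec_thm (R := fun x : (ℕ × ℕ) × ℕ =>
      Ψ (x.1.1, 0) ∨ ∃ u, Ψ (x.1.1, u) ∧ Wd x.1.2 x.2) (by
    refine RE.or (re_app hpm.1 (by fun_prop) (by fun_prop)) ?_
    refine RE.ex (p := fun (x : (ℕ × ℕ) × ℕ) (u : ℕ) => Ψ (x.1.1, u) ∧ Wd x.1.2 x.2) ?_
    exact RE.and (re_app hpm.1 (by fun_prop) (by fun_prop))
      (comp re_Wd (f := fun x : ((ℕ × ℕ) × ℕ) × ℕ => (x.1.1.2, x.1.2)) (by fun_prop)))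
  have key : ∀ c, ∃ d, Ψ (h c, 2 ^ d) := by
    intro c
    by_cases hu : ∃ u, Ψ (h c, u)
    · obtain ⟨u, hu⟩ := hu
      rcases hpm.cases hu with rfl | ⟨d, rfl⟩
      · exfalso
        have h1 : FinSet (h c) := (hΨ _).2 (Ap_zero hu B)
        rw [fin_iff] at h1
        have h2 : {m | Wd (h c) m} = Set.univ := by
          ext m
          simp only [Set.mem_univ, iff_true]
          exact (hW c m).2 (Or.inl hu)
        rw [h2] at h1
        exact Set.infinite_univ h1
      · exact ⟨d, hu⟩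
    · exfalso
      have h1 : FinSet (h c) := by
        rw [fin_iff]
        have h2 : {m | Wd (h c) m} = ∅ := by
          ext m
          simp only [Set.mem_empty_iff_false, iff_false]
          intro hm
          rcases (hW c m).1 hm with a | ⟨u, a, -⟩
          · exact hu ⟨0, a⟩
          · exact hu ⟨u, a⟩
        rw [h2]
        exact Set.finite_empty
      obtain ⟨u, a, -⟩ := (hΨ _).1 h1
      exact hu ⟨u, a⟩
  obtain ⟨g, hg, hr⟩ := exists_selector (r := fun c d => Ψ (h c, 2 ^ d))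
    (re_pow hpm.1 (hh.comp Computable.fst) Computable.snd) key
  refine ⟨g, hg, fun c => ?_⟩
  rw [← Ap_pow hpm (hr c) B, ← hΨ, fin_iff, fin_iff]
  have h2 : {m | Wd (h c) m} = {m | Wd c m} := by
    ext m
    show Wd (h c) m ↔ Wd c m
    rw [hW c m]
    constructor
    · rintro (a | ⟨u, -, b⟩)
      · exact absurd (hpm.2.1 _ _ _ a (hr c)).symm (pow_ne _)
      · exact b
    · intro hm
      exact Or.inr ⟨_, hr c, hm⟩
  rw [h2]

theorem to_fin (B : ℕ → Prop) (h : Red Pm B FinSet) :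
    ∃ g : ℕ → ℕ, Computable g ∧ ∀ x, B x ↔ FinSet (g x) := by
  obtain ⟨Ψ, hpm, hΨ⟩ := h
  obtain ⟨q, hq, hqΨ⟩ := re_iff.1 hpm.1
  have hq' : Computable fun x : (ℕ × ℕ) × ℕ => q x.1 x.2 := hq
  obtain ⟨g, hg, hW⟩ := rec_thm (R := fun x : (ℕ × ℕ) × ℕ =>
      (∀ u < x.2 + 1, ∀ s < x.2 + 1, q (x.1.2, u) s = false) ∨
      ∃ d, Ψ (x.1.2, 2 ^ d) ∧ Wd d x.2) (by
    refine RE.or ?_ ?_
    · refine of_comput ?_
      refine cp_all_lt (p := fun (x : (ℕ × ℕ) × ℕ) u => ∀ s < x.2 + 1, q (x.1.2, u) s = false) ?_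
        (by fun_prop)
      refine cp_all_lt (p := fun (y : ((ℕ × ℕ) × ℕ) × ℕ) s => q (y.1.1.2, y.2) s = false) ?_
        (by fun_prop)
      have h1 : Computable fun z : (((ℕ × ℕ) × ℕ) × ℕ) × ℕ => q (z.1.1.1.2, z.1.2) z.2 :=
        hq'.comp (g := fun z : (((ℕ × ℕ) × ℕ) × ℕ) × ℕ => ((z.1.1.1.2, z.1.2), z.2))
          (by fun_prop)
      exact cp_eq h1 (Computable.const false)
    · refine RE.ex (p := fun (x : (ℕ × ℕ) × ℕ) (d : ℕ) => Ψ (x.1.2, 2 ^ d) ∧ Wd d x.2) ?_
      exact RE.and (re_pow hpm.1 (by fun_prop) (by fun_prop))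
        (comp re_Wd (f := fun x : ((ℕ × ℕ) × ℕ) × ℕ => (x.2, x.1.2)) (by fun_prop)))
  refine ⟨g, hg, fun x => ?_⟩
  rw [hΨ x, fin_iff]
  by_cases hu : ∃ u, Ψ (x, u)
  · obtain ⟨u, hu⟩ := hu
    obtain ⟨s, hs⟩ := (hqΨ (x, u)).1 hu
    have hfin1 : {m : ℕ | ∀ u < m + 1, ∀ s < m + 1, q (x, u) s = false}.Finite := by
      refine (Set.finite_lt_nat (max u s)).subset fun m hm => ?_
      show m < max u s
      by_contra hge
      have := hm u (by omega) s (by omega)
      rw [hs] at this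
      simp at this
    have hsplit : {m | Wd (g x) m} = {m : ℕ | ∀ u < m + 1, ∀ s < m + 1, q (x, u) s = false} ∪
        {m | ∃ d, Ψ (x, 2 ^ d) ∧ Wd d m} := by
      ext m
      exact hW x m
    rw [hsplit, Set.finite_union]
    simp only [hfin1, true_and]
    rcases hpm.cases hu with rfl | ⟨d, rfl⟩
    · have h2 : {m | ∃ d, Ψ (x, 2 ^ d) ∧ Wd d m} = ∅ := by
        ext m
        simp only [Set.mem_empty_iff_false, iff_false]
        rintro ⟨d, hd, -⟩
        exact pow_ne d (hpm.2.1 _ _ _ hd hu)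
      rw [h2]
      exact ⟨fun _ => Set.finite_empty, fun _ => Ap_zero hu _⟩
    · rw [Ap_pow hpm hu, fin_iff]
      have h2 : {m | ∃ d, Ψ (x, 2 ^ d) ∧ Wd d m} = {m | Wd d m} := by
        ext m
        constructor
        · rintro ⟨d', hd', hm⟩
          have := pow_inj (hpm.2.1 _ _ _ hd' hu)
          subst this
          exact hm
        · intro hm
          exact ⟨d, hu, hm⟩
      rw [h2]
  · constructor
    · rintro ⟨u, a, -⟩
      exact absurd ⟨u, a⟩ hu
    · intro hfin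
      exfalso
      have h2 : {m | Wd (g x) m} = Set.univ := by
        ext m
        simp only [Set.mem_univ, iff_true]
        refine (hW x m).2 (Or.inl fun u _ s _ => ?_)
        cases hqq : q (x, u) s with
        | false => rfl
        | true => exact absurd ⟨u, (hqΨ _).2 ⟨s, hqq⟩⟩ hu
      rw [h2] at hfin
      exact Set.infinite_univ hfin

theorem fin_not_re : ¬ REPred FinSet := by
  intro hre
  obtain ⟨g, hg, hW⟩ := rec_thm (R := fun x : (ℕ × ℕ) × ℕ => Wd x.1.2 0)
    (comp re_Wd (f := fun x : (ℕ × ℕ) × ℕ => (x.1.2, 0)) (by fun_prop))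
  apply halt_not_re
  refine (comp hre hg).of_eq fun x => ?_
  rw [fin_iff]
  by_cases hx : Wd x 0
  · have h2 : {m | Wd (g x) m} = Set.univ := by
      ext m
      simp only [Set.mem_univ, iff_true]
      exact (hW x m).2 hx
    rw [h2]
    exact ⟨fun hf => absurd hf Set.infinite_univ, fun hn => absurd hx hn⟩
  · have h2 : {m | Wd (g x) m} = ∅ := by
      ext m
      simp only [Set.mem_empty_iff_false, iff_false]
      exact fun hm => hx ((hW x m).1 hm)
    rw [h2]
    exact ⟨fun _ => hx, fun _ => Set.finite_empty⟩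

theorem contiguous_fin : IsContiguous MOrRe Pm FinSet := by
  constructor
  · rintro ⟨⟨Ψ, hpm, hΨ⟩, -⟩
    apply fin_not_re
    refine (re_app hpm.1 Computable.id (Computable.const 0)).of_eq fun x => ?_
    rw [hΨ x]
    constructor
    · intro a
      exact Ap_zero a _
    · rintro ⟨u, a, hu⟩
      have : u = 0 := eq_zero fun d hd => hu d hd
      subst this
      exact a
  · have key : ∀ B C : ℕ → Prop, Red Pm B FinSet → Red Pm FinSet C → Red MOrRe B C := by
      intro B C h1 h2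
      obtain ⟨g1, hg1, e1⟩ := to_fin B h1
      obtain ⟨g2, hg2, e2⟩ := fin_to C h2
      exact red_of_m (f := fun x => g2 (g1 x)) (hg2.comp hg1) fun x => by rw [e1 x, e2 (g1 x)]
    intro B C h1 h2 h3 h4
    exact ⟨key B C h2 h3, key C B h4 h1⟩

/-! ### the two reducibilities are distinct -/

theorem distinct : ∃ A B : ℕ → Prop, Red Pm A B ∧ ¬ Red MOrRe A B := by
  have hG : REPred fun x : ℕ × ℕ => x.2 ∈ (Denumerable.ofNat Code x.1).eval 0 := by
    obtain ⟨h, hh, hW⟩ := rec_thm (R := fun x : (ℕ × ℕ) × ℕ => Wd x.1.2 0)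
      (comp re_Wd (f := fun x : (ℕ × ℕ) × ℕ => (x.1.2, 0)) (by fun_prop))
    have h1 : Partrec fun x : ℕ × ℕ => (Denumerable.ofNat Code x.1).eval 0 :=
      Nat.Partrec.Code.eval_part.comp ((Computable.ofNat Code).comp Computable.fst)
        (Computable.const 0)
    have h2 : Partrec fun x : ℕ × ℕ => ((Denumerable.ofNat Code x.1).eval 0).bind
        fun v => Part.assert (x.2 = v) fun _ => Part.some () := by
      refine Partrec.bind h1 ?_
      exact RE.eq (f := fun y : (ℕ × ℕ) × ℕ => y.1.2) (g := fun y => y.2) (by fun_prop)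
        (by fun_prop)
    refine h2.dom_re.of_eq fun x => ?_
    rw [Part.bind_dom]
    constructor
    · rintro ⟨hd, h3, -⟩
      rw [h3]
      exact Part.get_mem hd
    · intro hm
      obtain ⟨hd, he⟩ := hm
      exact ⟨hd, he.symm, trivial⟩
  have huniq : ∀ x v v', v ∈ (Denumerable.ofNat Code x).eval 0 →
      v' ∈ (Denumerable.ofNat Code x).eval 0 → v = v' := fun x v v' h1 h2 => Part.mem_unique h1 h2
  refine ⟨fun x => ∃ d, d ∈ (Denumerable.ofNat Code x).eval 0 ∧ ¬ Wd d 0, fun b => ¬ Wd b 0,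
    ?_, ?_⟩
  · have hpm : Pm fun p : ℕ × ℕ => ∃ d, p.2 = 2 ^ d ∧
        d ∈ (Denumerable.ofNat Code p.1).eval 0 := by
      refine ⟨?_, ?_, ?_⟩
      · refine RE.ex (p := fun (p : ℕ × ℕ) (d : ℕ) => p.2 = 2 ^ d ∧
          d ∈ (Denumerable.ofNat Code p.1).eval 0) ?_
        exact RE.and (RE.eq (by fun_prop) (c_pow.comp Computable.snd))
          (comp hG (f := fun x : (ℕ × ℕ) × ℕ => (x.1.1, x.2)) (by fun_prop))
      · rintro x u u' ⟨d, h1, h2⟩ ⟨d', h3, h4⟩
        have := huniq x d d' h2 h4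
        subst this
        exact h1.trans h3.symm
      · rintro x u i i' ⟨d, h1, h2⟩ h3 h4
        have h1' : u = 2 ^ d := h1
        subst h1'
        rw [(inD_pow _ i).1 h3, (inD_pow _ i').1 h4]
    refine ⟨_, hpm, fun x => ?_⟩
    constructor
    · rintro ⟨d, h1, h2⟩
      rw [Ap_pow (d := d) hpm ⟨d, rfl, h1⟩]
      exact h2
    · rintro ⟨u, ⟨d, h1, h2⟩, h3⟩
      have h1' : u = 2 ^ d := h1
      subst h1'
      exact ⟨d, h2, h3 d ((inD_pow _ _).2 rfl)⟩
  · intro hred
    rcases m_of_red hred with ⟨f, hf, hfx⟩ | hre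
    · -- the halting set reduces to `A`, hence its complement would be r.e.
      have hb : ∃ b, ¬ Wd b 0 := by
        by_contra hno
        push Not at hno
        apply halt_not_re
        refine (RE.const (α := ℕ) False).of_eq fun x => ?_
        simp [hno x]
      obtain ⟨b, hb⟩ := hb
      have hK : Partrec fun n : ℕ => (Part.assert (Wd n.unpair.1 0) fun _ => Part.some ()).map
          fun _ => b := by
        refine Partrec.map ?_ (Computable.const b).to₂
        exact comp re_Wd (f := fun n : ℕ => (n.unpair.1, 0)) (by fun_prop)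
      obtain ⟨E, hE⟩ := Nat.Partrec.Code.exists_code.1 (Partrec.nat_iff.1 hK)
      have hg : Computable fun x : ℕ => Encodable.encode (Code.curry E x) :=
        Computable.encode.comp (Nat.Partrec.Code.primrec₂_curry.to_comp.comp
          (Computable.const E) Computable.id)
      have hAg : ∀ x, Wd x 0 ↔ ∃ d, d ∈ (Denumerable.ofNat Code
          (Encodable.encode (Code.curry E x))).eval 0 ∧ ¬ Wd d 0 := by
        intro x
        rw [Denumerable.ofNat_encode, Nat.Partrec.Code.eval_curry, hE]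
        have e1 : (Nat.pair x 0).unpair.1 = x := by simp
        constructor
        · intro hx
          refine ⟨b, ?_, hb⟩
          rw [Part.mem_map_iff]
          exact ⟨(), ⟨⟨by rw [e1]; exact hx, trivial⟩, rfl⟩, rfl⟩
        · rintro ⟨d, hd, -⟩
          rw [Part.mem_map_iff] at hd
          obtain ⟨_, ⟨h1, _⟩, _⟩ := hd
          have h2 := h1.1
          rw [e1] at h2
          exact h2
      apply halt_not_re
      have h3 : REPred fun x : ℕ => Wd (f (Encodable.encode (Code.curry E x))) 0 :=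
        comp re_Wd (f := fun x : ℕ => (f (Encodable.encode (Code.curry E x)), 0))
          ((hf.comp hg).pair (Computable.const 0))
      refine h3.of_eq fun x => ?_
      rw [hAg x, hfx, not_not]
    · -- the complement of the halting set reduces to `A`
      apply halt_not_re
      have hc : Computable fun x : ℕ => Encodable.encode (Code.const x) :=
        Computable.encode.comp (Nat.Partrec.Code.primrec_const.to_comp)
      refine (comp hre hc).of_eq fun x => ?_
      rw [Denumerable.ofNat_encode, Nat.Partrec.Code.eval_const]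
      constructor
      · rintro ⟨d, hd, h2⟩
        rw [Part.mem_some_iff] at hd
        subst hd
        exact h2
      · intro h2
        exact ⟨x, Part.mem_some_iff.2 rfl, h2⟩

theorem result :
    IsEReducibility MOrRe ∧ IsEReducibility Pm ∧ IsProper MOrRe ∧ IsProper Pm ∧
    (∀ A B, Red MOrRe A B → Red Pm A B) ∧ (∃ A B, Red Pm A B ∧ ¬ Red MOrRe A B) ∧
    IsContiguous MOrRe Pm FinSet :=
  ⟨ered_m, ered_pm, proper_m, proper_pm, m_sub_pm, distinct, contiguous_fin⟩

end Pool.Agent.Results.MP_9a6b8c_lc.ContiguousPm
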